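import Pool.Agent.W106.CW.Stm

/-!
# Derivative of `uu` and continuity
-/

set_option autoImplicit false

open Classical

namespace Pool.Agent.W589.CW.Der

open Pool.Agent.W106.CW

variable {V : Type} [Fintype V]

theorem Z_pos (G : SimpleGraph V) {x : V → ℝ} (hx : ∀ w, 0 < x w) : 0 < Z G x := by
  unfold Z
  refine Finset.sum_pos (fun I _ => Finset.prod_pos fun v _ => hx v) ⟨∅, ?_⟩
  simp [ind]

omit [Fintype V] in
theorem cont_wt (I : Finset V) : Continuous fun x : V → ℝ => wt x I := by
  unfold wt
  exact continuous_finsetProd _ fun v _ => continuous_apply v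

omit [Fintype V] in
theorem wt_exp (x ω : V → ℝ) (τ : ℝ) (I : Finset V) :
    wt (fun z => x z * Real.exp (-(ω z * τ))) I = wt x I * Real.exp (-(sumI ω I * τ)) := by
  unfold wt sumI
  rw [Finset.prod_mul_distrib, ← Real.exp_sum, Finset.sum_neg_distrib, ← Finset.sum_mul]

theorem der_ex (G : SimpleGraph V) (x ω : V → ℝ) (h : Finset V → ℝ) :
    HasDerivAt (fun τ : ℝ => ex G (fun z => x z * Real.exp (-(ω z * τ))) h)
      (-ex G x (fun I => h I * sumI ω I)) 0 := by
  unfold ex
  simp only [wt_exp]
  rw [← Finset.sum_neg_distrib]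
  have key : ∀ I ∈ ind G, HasDerivAt (fun τ : ℝ => wt x I * Real.exp (-(sumI ω I * τ)) * h I)
      (-(wt x I * (h I * sumI ω I))) 0 := by
    intro I _
    have h1 : HasDerivAt (fun τ : ℝ => -(sumI ω I * τ)) (-(sumI ω I * 1)) 0 :=
      ((hasDerivAt_id (0 : ℝ)).const_mul (sumI ω I)).neg
    have h2 : HasDerivAt (fun τ : ℝ => wt x I * Real.exp (-(sumI ω I * τ)) * h I)
        (wt x I * (Real.exp (-(sumI ω I * 0)) * (-(sumI ω I * 1))) * h I) 0 :=
      (h1.exp.const_mul (wt x I)).mul_const (h I)
    have e : wt x I * (Real.exp (-(sumI ω I * 0)) * (-(sumI ω I * 1))) * h I =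
        -(wt x I * (h I * sumI ω I)) := by
      rw [mul_zero, neg_zero, Real.exp_zero]
      ring
    rw [← e]
    exact h2
  exact HasDerivAt.fun_sum key

theorem Z_eq (G : SimpleGraph V) (x : V → ℝ) : Z G x = ex G x (fun _ => 1) := by
  simp [Z, ex]

theorem derU : DerU := by
  intro V _ G
  refine ⟨fun v => ?_, fun x hx ω v => ?_⟩
  · have h1 : Continuous fun x : V → ℝ =>
        ex G x (fun I => if v ∈ free G I then 1 else 0) := by
      unfold ex
      exact continuous_finsetSum _ fun I _ => (cont_wt I).mul continuous_const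
    have h2 : Continuous fun x : V → ℝ => Z G x := by
      unfold Z
      exact continuous_finsetSum _ fun I _ => cont_wt I
    exact h1.continuousOn.div h2.continuousOn fun x hx => (Z_pos G hx).ne'
  · have hZ := Z_pos G hx
    have h0 : (fun z => x z * Real.exp (-(ω z * 0))) = x := by
      ext z; simp
    have hA := der_ex G x ω (fun I => if v ∈ free G I then 1 else 0)
    have hB := der_ex G x ω (fun _ => 1)
    have hB' : HasDerivAt (fun τ : ℝ => Z G (fun z => x z * Real.exp (-(ω z * τ))))
        (-ex G x (fun I => 1 * sumI ω I)) 0 := by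
      simp only [Z_eq]
      exact hB
    have h := hA.fun_div hB' (by rw [h0]; exact hZ.ne')
    simp only [h0] at h
    have e : ex G x (fun I => 1 * sumI ω I) = ex G x (sumI ω) := by simp [ex]
    rw [e] at h
    have hval : uu G x v * av G x (sumI ω)
        - av G x (fun I => (if v ∈ free G I then 1 else 0) * sumI ω I) =
        (-ex G x (fun I => (if v ∈ free G I then 1 else 0) * sumI ω I) * Z G x -
          ex G x (fun I => if v ∈ free G I then 1 else 0) * -ex G x (sumI ω)) / Z G x ^ 2 := by
      unfold uu av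
      field_simp
      ring
    rw [hval]
    exact h

end Pool.Agent.W589.CW.Der
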